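import Mathlib
import Pool.Agent.Helper680.OddQ

set_option autoImplicit false

/-!
# Rationals `r/s` all of whose powers have odd integer part

For every fixed denominator `s ≥ 2` the numerators have a power-saving counting function; for
`s = 2` there is none.
-/

namespace Pool.Agent.Results.MP_9a799e_nt.Sparse

open Filter Topology Pool.Agent.Helper680.SigA Pool.Agent.Helper680.OddP

/-- The numerators `r` for which `r/s > 1` is in lowest terms and all `⌊(r/s)^n⌋`, `n ≥ 1`, are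
odd. -/
def Good (s : ℕ) : Set ℕ := {r | r.Coprime s ∧ s < r ∧ ∀ n : ℕ, 1 ≤ n → Odd ⌊((r : ℚ) / s) ^ n⌋}

open Classical in
/-- the number of such numerators up to `N` -/
noncomputable def count (s N : ℕ) : ℕ := ((Finset.Icc 1 N).filter (fun r => r ∈ Good s)).card

/-- the exponent saved -/
noncomputable def c (s : ℕ) : ℝ := Real.log (3 / 2) / (s * Real.log s)

theorem floor_eq (r s n : ℕ) : ⌊((r : ℚ) / s) ^ n⌋ = ((r ^ n / s ^ n : ℕ) : ℤ) := by
  rw [div_pow, ← Nat.cast_pow, ← Nat.cast_pow, Int.floor_eq_iff]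
  have h1 : ((r ^ n / s ^ n : ℕ) : ℚ) ≤ ((r ^ n : ℕ) : ℚ) / ((s ^ n : ℕ) : ℚ) := Nat.cast_div_le
  have h2 : ((r ^ n : ℕ) : ℚ) / ((s ^ n : ℕ) : ℚ) < ((r ^ n / s ^ n : ℕ) : ℚ) + 1 := by
    rw [← Nat.floor_div_eq_div (K := ℚ)]
    exact Nat.lt_floor_add_one _
  exact ⟨by exact_mod_cast h1, by exact_mod_cast h2⟩

theorem Good_sub (s k : ℕ) : Good s ⊆ G s k := by
  rintro r ⟨h1, _, h3⟩
  refine ⟨h1, fun n hn _ => ?_⟩
  have := h3 n hn
  rw [floor_eq] at this
  exact_mod_cast this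

theorem cnt_count (s N : ℕ) : cnt (Good s) N = count s N := by
  classical
  unfold cnt ind count
  rw [Finset.card_filter]
  push_cast
  refine Finset.sum_congr rfl fun n _ => ?_
  rw [Set.indicator_apply]

theorem c_pos (s : ℕ) (hs : 2 ≤ s) : 0 < c s := by
  have hs' : (2 : ℝ) ≤ s := by exact_mod_cast hs
  have h1 : 0 < Real.log s := Real.log_pos (by linarith)
  have h2 : 0 < Real.log (3 / 2) := Real.log_pos (by norm_num)
  unfold c
  positivity

theorem bound (s : ℕ) (hs : 2 ≤ s) (N : ℕ) (hN : 1 ≤ N) :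
    (count s N : ℝ) ≤ 3 * (2 * s : ℝ) ^ c s * (N : ℝ) ^ (1 - c s) := by
  rw [← cnt_count]
  exact power s hs (Good s) (Good_sub s) N hN

theorem good_two : Good 2 = ∅ := by
  rw [Set.eq_empty_iff_forall_notMem]
  rintro r ⟨hr, _, h⟩
  have h1 := h 1 le_rfl
  have h2 := h 2 (by norm_num)
  rw [show ((2 : ℕ) : ℚ) = ((2 : ℕ) : ℚ) from rfl, floor_eq r 2] at h1 h2
  have h1' : Odd (r ^ 1 / 2 ^ 1) := by exact_mod_cast h1
  have h2' : Odd (r ^ 2 / 2 ^ 2) := by exact_mod_cast h2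
  have hodd : r % 2 = 1 := by
    rcases Nat.mod_two_eq_zero_or_one r with h0 | h0
    · exfalso
      have : 2 ∣ Nat.gcd r 2 := Nat.dvd_gcd (Nat.dvd_of_mod_eq_zero h0) (dvd_refl 2)
      have h3 : Nat.gcd r 2 = 1 := hr
      omega
    · exact h0
  rw [pow_one, pow_one] at h1'
  have h4 : r % 4 = 3 := by
    have := Nat.odd_iff.1 h1'
    omega
  obtain ⟨m, hm⟩ : ∃ m, r = 4 * m + 3 := ⟨r / 4, by omega⟩
  have h5 : r ^ 2 / 2 ^ 2 = 2 * (2 * m ^ 2 + 3 * m + 1) := by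
    rw [hm]
    have : (4 * m + 3) ^ 2 = 1 + 2 ^ 2 * (2 * (2 * m ^ 2 + 3 * m + 1)) := by ring
    rw [this, Nat.add_mul_div_left _ _ (by norm_num)]
    norm_num
  rw [h5] at h2'
  exact (Nat.not_odd_iff_even.2 (even_two_mul _)) h2'

theorem result :
    -- power saving for every denominator
    (∀ s : ℕ, 2 ≤ s → 0 < c s ∧ ∀ N : ℕ, 1 ≤ N →
      (count s N : ℝ) ≤ 3 * (2 * s : ℝ) ^ c s * (N : ℝ) ^ (1 - c s)) ∧
    -- in particular density zero
    (∀ s : ℕ, 2 ≤ s → Tendsto (fun N : ℕ => (count s N : ℝ) / N) atTop (𝓝 0)) ∧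
    -- no rational with denominator two
    Good 2 = ∅ := by
  refine ⟨fun s hs => ⟨c_pos s hs, bound s hs⟩, fun s hs => ?_, good_two⟩
  have hc := c_pos s hs
  have h1 : Tendsto (fun N : ℕ => 3 * (2 * s : ℝ) ^ c s * (N : ℝ) ^ (-c s)) atTop (𝓝 0) := by
    have h2 : Tendsto (fun N : ℕ => (N : ℝ) ^ (-c s)) atTop (𝓝 0) :=
      (tendsto_rpow_neg_atTop hc).comp tendsto_natCast_atTop_atTop
    simpa using h2.const_mul (3 * (2 * s : ℝ) ^ c s)
  refine tendsto_of_tendsto_of_tendsto_of_le_of_le' tendsto_const_nhds h1 ?_ ?_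
  · filter_upwards with N
    positivity
  · filter_upwards [eventually_ge_atTop 1] with N hN
    have hN0 : (0 : ℝ) < N := by exact_mod_cast hN
    rw [div_le_iff₀ hN0]
    refine (bound s hs N hN).trans (le_of_eq ?_)
    rw [mul_assoc (3 * (2 * s : ℝ) ^ c s), ← Real.rpow_add_one hN0.ne']
    congr 2
    ring

end Pool.Agent.Results.MP_9a799e_nt.Sparse
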